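import Pool.Agent.helper71.EP.SpecE

set_option autoImplicit false

open Finset
open scoped Real
open Pool.Agent.helper74.TG

noncomputable section

namespace Pool.Agent.EP

theorem ECT_mono (m : ℕ) {s t : ℕ} (h : s ≤ t) : hq m s ≤ hq m t := by
  unfold hq
  gcongr

theorem ECT_fw_nonneg (m c x : ℕ) : 0 ≤ fw m c x := by
  unfold fw
  apply mul_nonneg
  · positivity
  · split_ifs
    · exact Real.log_natCast_nonneg _
    · exact le_rfl

theorem ECT_fw_zero (m c x : ℕ) (h : ¬ (m * x + c).Prime) : fw m c x = 0 := by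
  unfold fw
  rw [if_neg h, mul_zero]

theorem ECT_fw_le (m c x : ℕ) (B : ℝ) (hm : 0 < m) (hB : 0 ≤ B)
    (h : Real.log ((m * x + c : ℕ) : ℝ) ≤ B) : fw m c x ≤ B := by
  unfold fw
  have h1 : (Nat.totient m / m : ℝ) ≤ 1 := by
    rw [div_le_one (by exact_mod_cast hm)]
    exact_mod_cast Nat.totient_le m
  have h0 : (0 : ℝ) ≤ (Nat.totient m / m : ℝ) := by positivity
  have h2 : (if (m * x + c).Prime then Real.log (m * x + c : ℕ) else 0) ≤ B := by
    split_ifs
    · exact h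
    · exact hB
  calc (Nat.totient m / m : ℝ) * (if (m * x + c).Prime then Real.log (m * x + c : ℕ) else 0)
      ≤ (Nat.totient m / m : ℝ) * B := mul_le_mul_of_nonneg_left h2 h0
    _ ≤ 1 * B := mul_le_mul_of_nonneg_right h1 hB
    _ = B := one_mul B

theorem ECT_bound (m T : ℕ) (L : ℝ) (hm : 0 < m) (hL : 0 ≤ L)
    (hlog : Real.log ((m * hq m T : ℕ) : ℝ) ≤ L) :
    ‖RR m T (fun x => (fw m (m - 1) x : ℂ)) (fun y => (fw m 1 y : ℂ))‖ ≤ L ^ 2 * #(Sol m T) := by
  have hterm : ∀ t ∈ Ioc 0 T, ∀ y ∈ Ioc 0 (Yt m t),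
      ‖(fw m (m - 1) (hq m t - 1 - 4 * y) : ℂ) * (fw m 1 y : ℂ)‖ ≤
        if (t, y) ∈ Sol m T then L ^ 2 else 0 := by
    intro t ht y hy
    rw [Finset.mem_Ioc] at ht hy
    have hy4 : 4 * y + 2 ≤ hq m t := by
      have := hy.2
      unfold Yt at this
      omega
    have hmono : hq m t ≤ hq m T := ECT_mono m ht.2
    rw [norm_mul, Complex.norm_real, Complex.norm_real, Real.norm_of_nonneg (ECT_fw_nonneg _ _ _),
      Real.norm_of_nonneg (ECT_fw_nonneg _ _ _)]
    by_cases hS : (t, y) ∈ Sol m T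
    · rw [if_pos hS]
      have hx1 : m * (hq m t - 1 - 4 * y) + (m - 1) ≤ m * hq m T := by
        have h1 : hq m t - 1 - 4 * y + 1 ≤ hq m T := by omega
        calc m * (hq m t - 1 - 4 * y) + (m - 1) ≤ m * (hq m t - 1 - 4 * y) + m := by omega
          _ = m * (hq m t - 1 - 4 * y + 1) := by ring
          _ ≤ m * hq m T := Nat.mul_le_mul_left m h1
      have hy1 : m * y + 1 ≤ m * hq m T := by
        have h1 : y + 1 ≤ hq m T := by omega
        calc m * y + 1 ≤ m * y + m := by omega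
          _ = m * (y + 1) := by ring
          _ ≤ m * hq m T := Nat.mul_le_mul_left m h1
      have hp := (Finset.mem_filter.1 hS).2
      have hA : Real.log ((m * (hq m t - 1 - 4 * y) + (m - 1) : ℕ) : ℝ) ≤ L := by
        refine le_trans (Real.log_le_log ?_ ?_) hlog
        · exact_mod_cast hp.2.1.pos
        · exact_mod_cast hx1
      have hB : Real.log ((m * y + 1 : ℕ) : ℝ) ≤ L := by
        refine le_trans (Real.log_le_log ?_ ?_) hlog
        · exact_mod_cast hp.2.2.pos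
        · exact_mod_cast hy1
      have h1 := ECT_fw_le m (m - 1) (hq m t - 1 - 4 * y) L hm hL hA
      have h2 := ECT_fw_le m 1 y L hm hL hB
      calc fw m (m - 1) (hq m t - 1 - 4 * y) * fw m 1 y ≤ L * L :=
            mul_le_mul h1 h2 (ECT_fw_nonneg _ _ _) hL
        _ = L ^ 2 := by ring
    · rw [if_neg hS]
      have h3 : ¬ ((m * (hq m t - 1 - 4 * y) + (m - 1)).Prime ∧ (m * y + 1).Prime) := by
        intro h4
        apply hS
        unfold Sol
        rw [Finset.mem_filter, Finset.mem_product, Finset.mem_Ioc, Finset.mem_Ioc]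
        exact ⟨⟨ht, hy.1, by dsimp only; omega⟩, hy4, h4.1, h4.2⟩
      by_cases h5 : (m * (hq m t - 1 - 4 * y) + (m - 1)).Prime
      · have h6 : ¬ (m * y + 1).Prime := fun h6 => h3 ⟨h5, h6⟩
        rw [ECT_fw_zero m 1 y h6, mul_zero]
      · rw [ECT_fw_zero m (m - 1) _ h5, zero_mul]
  unfold RR
  calc ‖∑ t ∈ Ioc 0 T, ∑ y ∈ Ioc 0 (Yt m t),
        (fw m (m - 1) (hq m t - 1 - 4 * y) : ℂ) * (fw m 1 y : ℂ)‖
      ≤ ∑ t ∈ Ioc 0 T, ∑ y ∈ Ioc 0 (Yt m t), if (t, y) ∈ Sol m T then L ^ 2 else 0 := by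
        refine (norm_sum_le _ _).trans (Finset.sum_le_sum fun t ht => ?_)
        exact (norm_sum_le _ _).trans (Finset.sum_le_sum fun y hy => hterm t ht y hy)
    _ ≤ ∑ t ∈ Ioc 0 T, ∑ y ∈ Ioc 0 (hq m T), if (t, y) ∈ Sol m T then L ^ 2 else 0 := by
        refine Finset.sum_le_sum fun t ht => ?_
        refine Finset.sum_le_sum_of_subset_of_nonneg ?_ ?_
        · intro y hy
          rw [Finset.mem_Ioc] at ht hy ⊢
          have hmono : hq m t ≤ hq m T := ECT_mono m ht.2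
          have := hy.2
          unfold Yt at this
          exact ⟨hy.1, by omega⟩
        · intro y _ _
          split_ifs
          · positivity
          · exact le_rfl
    _ = ∑ z ∈ Ioc 0 T ×ˢ Ioc 0 (hq m T), if z ∈ Sol m T then L ^ 2 else 0 := by
        rw [Finset.sum_product]
    _ = ∑ z ∈ (Ioc 0 T ×ˢ Ioc 0 (hq m T)) with z ∈ Sol m T, L ^ 2 := by
        rw [Finset.sum_filter]
    _ = #{z ∈ Ioc 0 T ×ˢ Ioc 0 (hq m T) | z ∈ Sol m T} * L ^ 2 := by
        rw [Finset.sum_const, nsmul_eq_mul]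
    _ ≤ #(Sol m T) * L ^ 2 := by
        refine mul_le_mul_of_nonneg_right ?_ (by positivity)
        have : #{z ∈ Ioc 0 T ×ˢ Ioc 0 (hq m T) | z ∈ Sol m T} ≤ #(Sol m T) := by
          apply Finset.card_le_card
          intro z hz
          exact (Finset.mem_filter.1 hz).2
        exact_mod_cast this
    _ = L ^ 2 * #(Sol m T) := by ring

theorem ECT (hE : ECE_stmt) (hM : ECM_stmt) : ECT_stmt := by
  intro m hm h24 hpr
  obtain ⟨T₁, h1⟩ := hE m hm h24
  obtain ⟨T₂, h2⟩ := hM m hm h24 hpr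
  refine ⟨max (max T₁ T₂) (9 * m ^ 2 + 2), ?_⟩
  intro T hT
  have hT1 : T₁ ≤ T := le_trans (le_trans (le_max_left _ _) (le_max_left _ _)) hT
  have hT2 : T₂ ≤ T := le_trans (le_trans (le_max_right _ _) (le_max_left _ _)) hT
  have hT3 : 9 * m ^ 2 + 2 ≤ T := le_trans (le_max_right _ _) hT
  have hTpos : 0 < T := by omega
  have hm24 : 24 ≤ m := Nat.le_of_dvd hm h24
  have hTR : (0 : ℝ) < T := by exact_mod_cast hTpos
  have hlogT : 0 < Real.log T := Real.log_pos (by exact_mod_cast (by omega : 1 < T))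
  have hnat : m * hq m T ≤ T ^ 3 := by
    unfold hq
    have hmT : 6 * T ≤ 6 * m * T ^ 2 := by
      have h3 : T ≤ m * T ^ 2 := by
        calc T = 1 * T ^ 1 := by ring
          _ ≤ m * T ^ 2 := Nat.mul_le_mul hm (Nat.pow_le_pow_right hTpos (by norm_num))
      calc 6 * T ≤ 6 * (m * T ^ 2) := Nat.mul_le_mul_left 6 h3
        _ = 6 * m * T ^ 2 := by ring
    calc m * (3 * m * T ^ 2 + 6 * T) ≤ m * (3 * m * T ^ 2 + 6 * m * T ^ 2) := by gcongr
      _ = (9 * m ^ 2) * T ^ 2 := by ring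
      _ ≤ T * T ^ 2 := Nat.mul_le_mul_right _ (by omega)
      _ = T ^ 3 := by ring
  have hqpos : 0 < m * hq m T := by
    unfold hq
    positivity
  have hlog : Real.log ((m * hq m T : ℕ) : ℝ) ≤ 3 * Real.log T := by
    have h3 : Real.log ((m * hq m T : ℕ) : ℝ) ≤ Real.log ((T : ℝ) ^ 3) := by
      apply Real.log_le_log
      · exact_mod_cast hqpos
      · exact_mod_cast hnat
    rw [Real.log_pow] at h3
    exact_mod_cast h3
  have hb := ECT_bound m T (3 * Real.log T) hm (by positivity) hlog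
  have hd := h1 T hT1
  have hg := h2 T hT2
  have htri := norm_sub_norm_le
    (RR m T (gm m (m - 1) ⌊Real.log (hq m T) ^ 96⌋₊) (gm m 1 ⌊Real.log (hq m T) ^ 96⌋₊))
    (RR m T (fun x => (fw m (m - 1) x : ℂ)) (fun y => (fw m 1 y : ℂ)))
  rw [norm_sub_rev] at htri
  have hmain : (m : ℝ) * (T : ℝ) ^ 3 / 8 ≤ (3 * Real.log T) ^ 2 * #(Sol m T) := by
    have hpos : 0 ≤ (m : ℝ) * (T : ℝ) ^ 3 := by positivity
    linarith
  have hm24R : (24 : ℝ) ≤ m := by exact_mod_cast hm24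
  rw [div_le_iff₀ (by positivity)]
  have h5 : 3 * (T : ℝ) ^ 3 ≤ 9 * Real.log T ^ 2 * #(Sol m T) := by
    calc 3 * (T : ℝ) ^ 3 = 24 * (T : ℝ) ^ 3 / 8 := by ring
      _ ≤ (m : ℝ) * (T : ℝ) ^ 3 / 8 := by gcongr
      _ ≤ (3 * Real.log T) ^ 2 * #(Sol m T) := hmain
      _ = 9 * Real.log T ^ 2 * #(Sol m T) := by ring
  have h6 : 0 ≤ Real.log T ^ 2 * (#(Sol m T) : ℝ) := by positivity
  nlinarith

end Pool.Agent.EP
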